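import Pool.Agent.R882.ZC
import Pool.Agent.R882.CovGT

/-!
Derivations of a field of transcendence degree two which are zero on one element.
-/

set_option autoImplicit false
set_option maxHeartbeats 4000000

open Pool.Agent.W602.GT

namespace Pool.Agent.T6.H17.EL

variable {Ω : Type} [Field Ω] [Algebra ℂ Ω]

/-- a derivation which is zero on a transcendence basis is zero -/
theorem der_basis {q z : Ω} (hb : IsTranscendenceBasis ℂ ![q, z]) (D : Derivation ℂ Ω Ω)
    (h1 : D q = 0) (h2 : D z = 0) (w : Ω) : D w = 0 := by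
  have hE : ∀ c ∈ IntermediateField.adjoin ℂ (Set.range ![q, z]), D c = 0 :=
    Pool.Agent.R882.WR.der_adjoin D (x := ![q, z]) fun j => by
      fin_cases j
      · exact h1
      · exact h2
  have halg : Algebra.IsAlgebraic (Algebra.adjoin ℂ (Set.range ![q, z])) Ω := hb.isAlgebraic
  refine Pool.Agent.R882.WR.der_alg D hE ?_
  obtain ⟨p, hp0, hp⟩ := halg.1 w
  have hle : Algebra.adjoin ℂ (Set.range ![q, z]) ≤
      (IntermediateField.adjoin ℂ (Set.range ![q, z])).toSubalgebra :=
    IntermediateField.algebra_adjoin_le_adjoin ℂ _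
  refine ⟨p.map (Subalgebra.inclusion hle).toRingHom, ?_, ?_⟩
  · exact (Polynomial.map_ne_zero_iff (Subalgebra.inclusion_injective hle)).2 hp0
  · rw [Polynomial.aeval_def, Polynomial.eval₂_map]
    rw [Polynomial.aeval_def] at hp
    exact hp

/-- the kernel of a derivation -/
theorem alg_of_ker {q z : Ω} (hb : IsTranscendenceBasis ℂ ![q, z]) (D : Derivation ℂ Ω Ω)
    (h1 : D q = 0) (h2 : D z = 1) {X : Ω} (hX : D X = 0) :
    IsAlgebraic (IntermediateField.adjoin ℂ {q}) X := by
  by_contra hcon
  obtain ⟨E, hE⟩ : ∃ E : IntermediateField ℂ Ω, E = IntermediateField.adjoin ℂ {q} := ⟨_, rfl⟩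
  rw [← hE] at hcon
  have hcE : CharZero E := charZero_of_injective_algebraMap (algebraMap ℂ E).injective
  have hind : AlgebraicIndepOn E id ({X} : Set Ω) := by
    let _ : Unique ({X} : Set Ω) := Set.uniqueSingleton X
    rw [AlgebraicIndepOn, algebraicIndependent_unique_type_iff]
    exact hcon
  obtain ⟨s, hs1, hs2⟩ := exists_isTranscendenceBasis_superset hind
  have hXs : X ∈ s := hs1 rfl
  obtain ⟨D', hD'⟩ := exists_der (fun x : s => (x : Ω)) hs2 (fun _ => 1)
  have h3 : D' X = 1 := hD' ⟨X, hXs⟩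
  have hqE : q ∈ E := by
    rw [hE]
    exact IntermediateField.mem_adjoin_simple_self ℂ q
  have h4 : D' q = 0 := D'.map_algebraMap (⟨q, hqE⟩ : E)
  have h5 := der_basis hb (D'.restrictScalars ℂ - (D' z) • D) (by
    rw [Derivation.sub_apply, Derivation.smul_apply, h1, smul_zero, sub_zero]
    exact h4) (by
    rw [Derivation.sub_apply, Derivation.smul_apply, h2, smul_eq_mul, mul_one]
    exact sub_self _) X
  rw [Derivation.sub_apply, Derivation.smul_apply, hX, smul_zero, sub_zero] at h5
  have h6 : D' X = 0 := h5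
  rw [h3] at h6
  exact one_ne_zero h6

/-- the images of a transcendence basis -/
theorem basis_map {K : Type} [Field K] [Algebra ℂ K] (hΩ : Algebra.trdeg ℂ Ω = 2)
    {t x : K} (hb : IsTranscendenceBasis ℂ ![t, x]) (σ : K →ₐ[ℂ] Ω) :
    IsTranscendenceBasis ℂ ![σ t, σ x] := by
  have hind : AlgebraicIndependent ℂ ![σ t, σ x] := by
    have h1 := hb.1.map' (f := σ) σ.injective
    have h2 : (σ : K → Ω) ∘ ![t, x] = ![σ t, σ x] := by
      funext j
      fin_cases j <;> rfl
    rwa [h2] at h1
  refine hind.isTranscendenceBasis_of_trdeg_le ?_ ?_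
  · rw [hΩ]
    exact Cardinal.natCast_lt_aleph0 (n := 2)
  · rw [hΩ]
    simp

/-- the coordinates on a double covering -/
theorem basis_of_gen {K : Type} [Field K] [Algebra ℂ K] (hK : Algebra.trdeg ℂ K = 2)
    {t x y : K} {A B : Polynomial ℂ}
    (hy : y ^ 2 = x ^ 3 + Polynomial.aeval t A * x + Polynomial.aeval t B)
    (hgen : IntermediateField.adjoin ℂ {t, x, y} = ⊤) : IsTranscendenceBasis ℂ ![t, x] := by
  obtain ⟨E, hE⟩ : ∃ E : IntermediateField ℂ K,
    E = IntermediateField.adjoin ℂ (Set.range ![t, x]) := ⟨_, rfl⟩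
  have htE : t ∈ E := by
    rw [hE]
    exact IntermediateField.subset_adjoin ℂ _ ⟨0, rfl⟩
  have hxE : x ∈ E := by
    rw [hE]
    exact IntermediateField.subset_adjoin ℂ _ ⟨1, rfl⟩
  have hpE : ∀ p : Polynomial ℂ, Polynomial.aeval t p ∈ E := fun p => by
    have h1 := (Polynomial.aeval (⟨t, htE⟩ : E) p).2
    have h2 : ((Polynomial.aeval (⟨t, htE⟩ : E) p : E) : K) = Polynomial.aeval t p := by
      have h3 := Polynomial.aeval_algHom_apply E.val (⟨t, htE⟩ : E) p
      exact h3.symm
    rwa [h2] at h1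
  have hint : IsIntegral E y := by
    refine ⟨Polynomial.X ^ 2 - Polynomial.C (⟨x ^ 3 + Polynomial.aeval t A * x +
      Polynomial.aeval t B, add_mem (add_mem (pow_mem hxE 3) (mul_mem (hpE A) hxE)) (hpE B)⟩ : E),
      Polynomial.monic_X_pow_sub_C _ two_ne_zero, ?_⟩
    rw [Polynomial.eval₂_sub, Polynomial.eval₂_X_pow, Polynomial.eval₂_C, hy]
    exact sub_self _
  have htop : IntermediateField.adjoin E {y} = ⊤ := by
    rw [eq_top_iff]
    intro w _
    have h1 : w ∈ IntermediateField.adjoin ℂ {t, x, y} := by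
      rw [hgen]
      trivial
    have h2 : IntermediateField.adjoin ℂ {t, x, y} ≤
        (IntermediateField.adjoin E {y}).restrictScalars ℂ := by
      rw [IntermediateField.adjoin_le_iff]
      rintro z (rfl | rfl | rfl)
      · exact (IntermediateField.adjoin E {y}).algebraMap_mem ⟨_, htE⟩
      · exact (IntermediateField.adjoin E {y}).algebraMap_mem ⟨_, hxE⟩
      · exact IntermediateField.mem_adjoin_simple_self E _
    exact h2 h1
  have hfd : FiniteDimensional E K := by
    have h1 : FiniteDimensional E (IntermediateField.adjoin E {y}) :=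
      IntermediateField.adjoin.finiteDimensional hint
    rw [htop] at h1
    exact Module.Finite.equiv (IntermediateField.topEquiv (F := E) (E := K)).toLinearEquiv
  have halg : ∀ τ : K, IsAlgebraic (IntermediateField.adjoin ℂ (Set.range ![t, x])) τ := by
    rw [← hE]
    exact fun τ => (Algebra.IsIntegral.isIntegral τ).isAlgebraic
  have h1 := Pool.Agent.W619.PQ.alg_adjoin halg
  exact Algebra.IsAlgebraic.isTranscendenceBasis_of_lift_le_trdeg_of_finite ℂ
    ![t, x] (by rw [hK]; simp)

end Pool.Agent.T6.H17.EL
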