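import Pool.Agent.R882.ZC

/-!
The logarithmic derivative on an elliptic curve: a homomorphism of groups.
-/

set_option autoImplicit false
set_option maxHeartbeats 4000000

open WeierstrassCurve

namespace Pool.Agent.T6.H17.EL

/-- The curve `y ^ 2 = x ^ 3 + a x + b`. -/
def short {F : Type} [CommRing F] (a b : F) : WeierstrassCurve.Affine F := ⟨0, 0, 0, a, b⟩

section

variable {F : Type} [Field F] {a b : F}

theorem short_eq {x y : F} (h : (short a b).Nonsingular x y) : y ^ 2 = x ^ 3 + a * x + b := by
  have h1 := (Affine.equation_iff x y).1 ((Affine.nonsingular_iff x y).1 h).1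
  simp only [short] at h1
  linear_combination h1

theorem short_ns [CharZero F] {x y : F} (h : (short a b).Nonsingular x y) (hy : y = 0) :
    3 * x ^ 2 + a ≠ 0 := by
  have h1 := ((Affine.nonsingular_iff x y).1 h).2
  simp only [short, zero_mul, mul_zero, add_zero, sub_zero] at h1
  rcases h1 with h2 | h2
  · exact fun h3 => h2 (by rw [← h3])
  · exact absurd (by rw [hy, neg_zero]) h2

variable [CharZero F] (D : Derivation ℤ F F)

/-- The logarithmic derivative of a point: the value on `D` of the form `dx / 2 y`. -/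
def ld : (short a b).Point → F
  | .zero => 0
  | .some x y _ => D x / (2 * y)

theorem ld_spec (ha : D a = 0) (hb : D b = 0) {x y : F} (h : (short a b).Nonsingular x y) :
    D x = 2 * y * ld D (.some x y h) ∧ D y = (3 * x ^ 2 + a) * ld D (.some x y h) := by
  have h1 := short_eq h
  have h2 : 2 * y * D y = (3 * x ^ 2 + a) * D x := by
    have h3 := congrArg D h1
    rw [Derivation.leibniz_pow, map_add, map_add, Derivation.leibniz_pow, Derivation.leibniz,
      ha, hb] at h3
    simp only [smul_eq_mul, nsmul_eq_mul, Nat.cast_ofNat] at h3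
    linear_combination h3
  change D x = 2 * y * (D x / (2 * y)) ∧ D y = (3 * x ^ 2 + a) * (D x / (2 * y))
  by_cases hy : y = 0
  · have h3 := short_ns h hy
    have h4 : D x = 0 := by
      rw [hy, mul_zero, zero_mul] at h2
      exact (mul_eq_zero.1 h2.symm).resolve_left h3
    have h5 : D y = 0 := by rw [hy, map_zero]
    rw [h4, h5]
    simp
  · have h3 : (2 : F) * y ≠ 0 := mul_ne_zero two_ne_zero hy
    refine ⟨by field_simp, ?_⟩
    rw [← mul_div_assoc, eq_div_iff h3]
    linear_combination h2

theorem ld_uniq {x y : F} (h : (short a b).Nonsingular x y) {w : F} (h1 : D x = 2 * y * w)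
    (h2 : D y = (3 * x ^ 2 + a) * w) : ld D (.some x y h) = w := by
  change D x / (2 * y) = w
  by_cases hy : y = 0
  · have h3 := short_ns h hy
    have h4 : w = 0 := by
      rw [hy, map_zero] at h2
      exact (mul_eq_zero.1 h2.symm).resolve_left h3
    rw [h1, h4]
    simp
  · have h3 : (2 : F) * y ≠ 0 := mul_ne_zero two_ne_zero hy
    rw [h1]
    field_simp

theorem der_div {u v : F} (hv : v ≠ 0) : D (u / v) * v = D u - (u / v) * D v := by
  have h1 : D (u / v * v) = D u := by rw [div_mul_cancel₀ _ hv]
  rw [Derivation.leibniz, smul_eq_mul, smul_eq_mul] at h1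
  linear_combination h1

variable [DecidableEq F]

/-- **The logarithmic derivative is additive.** -/
theorem ld_add (ha : D a = 0) (hb : D b = 0) (P Q : (short a b).Point) :
    ld D (P + Q) = ld D P + ld D Q := by
  rcases P with _ | ⟨x1, y1, h1⟩
  · change ld D (0 + Q) = 0 + ld D Q
    rw [zero_add, zero_add]
  rcases Q with _ | ⟨x2, y2, h2⟩
  · change ld D (_ + 0) = ld D _ + 0
    rw [add_zero, add_zero]
  obtain ⟨w1, hw1⟩ : ∃ w1, w1 = ld D (.some x1 y1 h1) := ⟨_, rfl⟩
  obtain ⟨w2, hw2⟩ : ∃ w2, w2 = ld D (.some x2 y2 h2) := ⟨_, rfl⟩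
  have s1 := ld_spec D ha hb h1
  have s2 := ld_spec D ha hb h2
  have e1 := short_eq h1
  have e2 := short_eq h2
  rw [← hw1] at s1
  rw [← hw2] at s2
  rw [← hw1, ← hw2]
  obtain ⟨s11, s12⟩ := s1
  obtain ⟨s21, s22⟩ := s2
  have hneg : (short a b).negY x2 y2 = -y2 := by
    simp [Affine.negY, short]
  by_cases hxy : x1 = x2 ∧ y1 = (short a b).negY x2 y2
  · rw [Affine.Point.add_of_Y_eq hxy.1 hxy.2]
    change 0 = w1 + w2
    rw [hneg] at hxy
    obtain ⟨rfl, hy⟩ := hxy
    have h3 : D y1 = -D y2 := by rw [hy, map_neg]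
    by_cases hy1 : y1 = 0
    · have h4 := short_ns h1 hy1
      have h5 : (3 * x1 ^ 2 + a) * (w1 + w2) = 0 := by
        linear_combination h3 - s12 - s22
      exact ((mul_eq_zero.1 h5).resolve_left h4).symm
    · have h5 : 2 * y1 * (w1 + w2) = 0 := by
        have h6 : y2 = -y1 := by rw [hy, neg_neg]
        rw [h6] at s21
        linear_combination s21 - s11
      exact ((mul_eq_zero.1 h5).resolve_left (mul_ne_zero two_ne_zero hy1)).symm
  · rw [Affine.Point.add_some hxy]
    obtain ⟨l, hl⟩ : ∃ l, l = (short a b).slope x1 x2 y1 y2 := ⟨_, rfl⟩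
    obtain ⟨x3, hx3⟩ : ∃ x3, x3 = l ^ 2 - x1 - x2 := ⟨_, rfl⟩
    have hX : (short a b).addX x1 x2 ((short a b).slope x1 x2 y1 y2) = x3 := by
      rw [← hl, hx3]
      simp [Affine.addX, short]
    have hY : (short a b).addY x1 x2 y1 ((short a b).slope x1 x2 y1 y2) =
        l * (x1 - x3) - y1 := by
      rw [Affine.addY, Affine.negAddY, hX, ← hl]
      simp only [Affine.negY, short]
      ring
    -- the slope
    have key : 3 * x1 ^ 2 + a - 2 * l * y1 = (x1 - x3) * (x1 - x2) ∧
        D l = (x1 - x3) * w1 + (x2 - x3) * w2 ∧ l * (x1 - x2) = y1 - y2 := by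
      by_cases hx : x1 = x2
      · have hyn : y1 ≠ (short a b).negY x2 y2 := fun h => hxy ⟨hx, h⟩
        have hyy : y1 = y2 := by
          have h3 : (y1 - y2) * (y1 + y2) = 0 := by
            rw [hx] at e1
            linear_combination e1 - e2
          rcases mul_eq_zero.1 h3 with h4 | h4
          · exact sub_eq_zero.1 h4
          · exact absurd (eq_neg_of_add_eq_zero_left h4) (by rwa [hneg] at hyn)
        subst hx
        subst hyy
        have hy0 : y1 ≠ 0 := by
          intro h3
          rw [hneg, h3, neg_zero] at hyn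
          exact hyn rfl
        have hw : w1 = w2 := by rw [hw1, hw2]
        have hl2 : l = (3 * x1 ^ 2 + a) / (2 * y1) := by
          rw [hl, Affine.slope_of_Y_ne rfl hyn]
          simp only [Affine.negY, short]
          ring
        have h2y : (2 : F) * y1 ≠ 0 := mul_ne_zero two_ne_zero hy0
        have hl3 : l * (2 * y1) = 3 * x1 ^ 2 + a := by
          rw [hl2, div_mul_cancel₀ _ h2y]
        refine ⟨by linear_combination -hl3, ?_, by ring⟩
        have h5 := congrArg D hl3
        rw [Derivation.leibniz, map_add, Derivation.leibniz, Derivation.leibniz,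
          Derivation.leibniz_pow, ha] at h5
        have h6 : D (3 : F) = 0 := by
          have := D.map_natCast 3
          simpa using this
        have h7 : D (2 : F) = 0 := by
          have := D.map_natCast 2
          simpa using this
        simp only [smul_eq_mul, nsmul_eq_mul, Nat.cast_ofNat, h6, h7] at h5
        have h8 : (2 * y1) * (D l - ((x1 - x3) * w1 + (x1 - x3) * w2)) = 0 := by
          rw [← hw]
          rw [s11, s12] at h5
          rw [hx3]
          linear_combination h5 + 2 * l * w1 * hl3
        have h9 := (mul_eq_zero.1 h8).resolve_left h2y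
        linear_combination h9
      · have hd : x1 - x2 ≠ 0 := sub_ne_zero.2 hx
        have hl2 : l = (y1 - y2) / (x1 - x2) := by
          rw [hl, Affine.slope_of_X_ne hx]
        have hl3 : l * (x1 - x2) = y1 - y2 := by
          rw [hl2, div_mul_cancel₀ _ hd]
        have hl4 : (y1 + y2) * l = x1 ^ 2 + x1 * x2 + x2 ^ 2 + a := by
          have h3 : (x1 - x2) * ((y1 + y2) * l - (x1 ^ 2 + x1 * x2 + x2 ^ 2 + a)) = 0 := by
            linear_combination (y1 + y2) * hl3 + e1 - e2
          have h4 := (mul_eq_zero.1 h3).resolve_left hd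
          linear_combination h4
        have k1 : 3 * x1 ^ 2 + a - 2 * l * y1 = (x1 - x3) * (x1 - x2) := by
          rw [hx3]
          linear_combination -hl4 + l * hl3
        have k2 : 3 * x2 ^ 2 + a - 2 * l * y2 = (x2 - x3) * (x2 - x1) := by
          rw [hx3]
          linear_combination -hl4 - l * hl3
        refine ⟨k1, ?_, hl3⟩
        have h5 := congrArg D hl3
        rw [Derivation.leibniz, map_sub, map_sub] at h5
        simp only [smul_eq_mul] at h5
        rw [s11, s12, s21, s22] at h5
        have h8 : (x1 - x2) * (D l - ((x1 - x3) * w1 + (x2 - x3) * w2)) = 0 := by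
          linear_combination h5 + w1 * k1 - w2 * k2
        have h9 := (mul_eq_zero.1 h8).resolve_left hd
        linear_combination h9
    obtain ⟨k1, k3, k4⟩ := key
    obtain ⟨y3, hy3⟩ : ∃ y3, y3 = l * (x1 - x3) - y1 := ⟨_, rfl⟩
    have hD3 : D x3 = 2 * y3 * (w1 + w2) := by
      have h3 : D x3 = 2 * l * D l - D x1 - D x2 := by
        rw [hx3, map_sub, map_sub, Derivation.leibniz_pow]
        simp only [smul_eq_mul, nsmul_eq_mul, Nat.cast_ofNat]
        ring
      rw [h3, k3, s11, s21, hy3]
      linear_combination (-2 * w2) * k4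
    have hDy3 : D y3 = (3 * x3 ^ 2 + a) * (w1 + w2) := by
      have h3 : D y3 = D l * (x1 - x3) + l * (D x1 - D x3) - D y1 := by
        rw [hy3, map_sub, Derivation.leibniz, map_sub]
        simp only [smul_eq_mul]
        ring
      rw [h3, k3, hD3, s11, s12, hy3]
      linear_combination (-2 * w1 - w2) * k1 + 2 * (x1 - x3) * (w1 + w2) * hx3
    have hns := Affine.nonsingular_add h1 h2 hxy
    refine ld_uniq D hns ?_ ?_
    · rw [hX, hY, ← hy3, hD3]
    · rw [hX, hY, ← hy3, hDy3]

end

end Pool.Agent.T6.H17.EL
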