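import Pool.Agent.T6.H17.EL.Ld
import Pool.Agent.T6.H17.EL.Alg

/-!
Families of zero-cycles on elliptic surfaces.
-/

set_option autoImplicit false
set_option maxHeartbeats 4000000

open WeierstrassCurve Pool.Agent.W602.GT

namespace Pool.Agent.T6.H17.EL

section

variable {K Ω : Type} [Field K] [Algebra ℂ K] [Field Ω] [Algebra ℂ Ω]

/-- The fibre over `q` of the surface `y ^ 2 = x ^ 3 + A(t) x + B(t)`. -/
noncomputable def fibre (A B : Polynomial ℂ) (q : Ω) : WeierstrassCurve.Affine Ω :=
  short (Polynomial.aeval q A) (Polynomial.aeval q B)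

open Classical in
/-- The point `(σ x, σ y)` of the fibre over `q`, if `σ` lies over `q`. -/
noncomputable def point (A B : Polynomial ℂ) (t x y : K) (q : Ω) (σ : K →ₐ[ℂ] Ω) :
    (fibre A B q).Point :=
  if h : σ t = q ∧ (fibre A B q).Nonsingular (σ x) (σ y) then .some (σ x) (σ y) h.2 else 0

open Classical in
/-- The sum of the points of `c` over `q`, for the group law of the fibre. -/
noncomputable def fibreSum (A B : Polynomial ℂ) (t x y : K) (c : (K →ₐ[ℂ] Ω) →₀ ℤ) (q : Ω) :
    (fibre A B q).Point :=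
  ∑ σ ∈ c.support, c σ • point A B t x y q σ

/-- The coordinates of the point `P` are algebraic over `ℂ(q)`. -/
def IsAlgebraicPoint {A B : Polynomial ℂ} {q : Ω} (P : (fibre A B q).Point) : Prop :=
  ∀ X Y h, P = .some X Y h → IsAlgebraic (IntermediateField.adjoin ℂ {q}) X ∧
    IsAlgebraic (IntermediateField.adjoin ℂ {q}) Y

/-- The trace of `c` is zero on the forms `t ^ a dt ∧ dx / y`, `a < p`. -/
def IsNull (p : ℕ) (t x y : K) (c : (K →ₐ[ℂ] Ω) →₀ ℤ) : Prop :=
  ∀ a < p, ∀ D1 D2 : Derivation ℂ Ω Ω, ∑ σ ∈ c.support, (c σ : Ω) *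
    (σ t ^ a * (D1 (σ t) * D2 (σ x) - D2 (σ t) * D1 (σ x)) / σ y) = 0

variable {A B : Polynomial ℂ} {t x y : K}

/-- the points of the surface are nonsingular points of the fibres -/
theorem point_ns (hK : Algebra.trdeg ℂ K = 2)
    (hy : y ^ 2 = x ^ 3 + Polynomial.aeval t A * x + Polynomial.aeval t B)
    (hgen : IntermediateField.adjoin ℂ {t, x, y} = ⊤) (σ : K →ₐ[ℂ] Ω) :
    y ≠ 0 ∧ (fibre A B (σ t)).Nonsingular (σ x) (σ y) := by
  have hb := basis_of_gen hK hy hgen
  have hcΩ : CharZero Ω := charZero_of_injective_algebraMap (algebraMap ℂ Ω).injective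
  have hy0 : y ≠ 0 := by
    intro h0
    -- then `x` is algebraic over `ℂ(t)`
    obtain ⟨F, hF⟩ : ∃ F : MvPolynomial (Fin 2) ℂ, F = MvPolynomial.X 1 ^ 3 +
      Polynomial.aeval (MvPolynomial.X 0 : MvPolynomial (Fin 2) ℂ) A * MvPolynomial.X 1 +
      Polynomial.aeval (MvPolynomial.X 0 : MvPolynomial (Fin 2) ℂ) B := ⟨_, rfl⟩
    have hFt : ∀ p : Polynomial ℂ, MvPolynomial.aeval ![t, x]
        (Polynomial.aeval (MvPolynomial.X 0 : MvPolynomial (Fin 2) ℂ) p) =
        Polynomial.aeval t p := by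
      intro p
      rw [← Polynomial.aeval_algHom_apply, MvPolynomial.aeval_X]
      rfl
    have h1 : MvPolynomial.aeval ![t, x] F = 0 := by
      rw [hF, map_add, map_add, map_mul, map_pow, hFt, hFt, MvPolynomial.aeval_X]
      change x ^ 3 + Polynomial.aeval t A * x + Polynomial.aeval t B = 0
      rw [← hy, h0]
      ring
    have h2 : F = 0 := (injective_iff_map_eq_zero _).1 hb.1 F h1
    -- evaluate at `X 0 = 0`
    obtain ⟨φ, hφ⟩ : ∃ φ : MvPolynomial (Fin 2) ℂ →ₐ[ℂ] Polynomial ℂ,
      φ = MvPolynomial.aeval ![0, Polynomial.X] := ⟨_, rfl⟩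
    have h3 : φ F = 0 := by rw [h2, map_zero]
    have hφ1 : φ (MvPolynomial.X 1) = Polynomial.X := by
      rw [hφ, MvPolynomial.aeval_X]
      rfl
    have hφp : ∀ p : Polynomial ℂ, φ
        (Polynomial.aeval (MvPolynomial.X 0 : MvPolynomial (Fin 2) ℂ) p) =
        Polynomial.C (p.eval 0) := by
      intro p
      rw [← Polynomial.aeval_algHom_apply, hφ, MvPolynomial.aeval_X]
      change Polynomial.aeval (0 : Polynomial ℂ) p = _
      have h4 : (0 : Polynomial ℂ) = algebraMap ℂ (Polynomial ℂ) 0 := (map_zero _).symm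
      conv_lhs => rw [h4]
      rw [Polynomial.aeval_algebraMap_apply_eq_algebraMap_eval]
      rfl
    rw [hF, map_add, map_add, map_mul, map_pow, hφp, hφp, hφ1] at h3
    have h4 := congrArg (fun p => Polynomial.coeff p 3) h3
    simp at h4
  refine ⟨hy0, ?_⟩
  rw [Affine.nonsingular_iff, Affine.equation_iff]
  simp only [fibre, short, zero_mul, add_zero, mul_zero, sub_zero]
  refine ⟨?_, Or.inr ?_⟩
  · have h1 := congrArg σ hy
    rw [map_pow, map_add, map_add, map_mul, map_pow, ← Polynomial.aeval_algHom_apply,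
      ← Polynomial.aeval_algHom_apply] at h1
    rw [h1]
  · intro h1
    have h2 : (2 : Ω) * σ y = 0 := by linear_combination h1
    rcases mul_eq_zero.1 h2 with h3 | h3
    · exact two_ne_zero h3
    · exact hy0 ((map_eq_zero σ).1 h3)

/-- a derivation which is zero on `q` is zero on the coefficients of the fibre -/
theorem der_coef (D : Derivation ℂ Ω Ω) {q : Ω} (hq : D q = 0) (p : Polynomial ℂ) :
    D.restrictScalars ℤ (Polynomial.aeval q p) = 0 := by
  change D (Polynomial.aeval q p) = 0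
  rw [Derivation.map_aeval, hq, smul_zero]

open Classical in
/-- the logarithmic derivative of the sum of a fibre -/
theorem ld_sum [CharZero Ω] (D : Derivation ℂ Ω Ω) {q : Ω} (hq : D q = 0)
    (c : (K →ₐ[ℂ] Ω) →₀ ℤ)
    (hns : ∀ σ : K →ₐ[ℂ] Ω, σ t = q → (fibre A B q).Nonsingular (σ x) (σ y)) :
    ld (D.restrictScalars ℤ) (fibreSum A B t x y c q) =
      ∑ σ ∈ c.support with σ t = q, (c σ : Ω) * (D (σ x) / (2 * σ y)) := by
  let L : (fibre A B q).Point →+ Ω :=
    { toFun := ld (D.restrictScalars ℤ)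
      map_zero' := rfl
      map_add' := ld_add (D.restrictScalars ℤ) (der_coef D hq A) (der_coef D hq B) }
  have h1 : ld (D.restrictScalars ℤ) (fibreSum A B t x y c q) =
      L (∑ σ ∈ c.support, c σ • point A B t x y q σ) := rfl
  rw [h1, map_sum, Finset.sum_filter]
  refine Finset.sum_congr rfl fun σ _ => ?_
  rw [map_zsmul, zsmul_eq_mul]
  by_cases h : σ t = q
  · rw [if_pos h]
    congr 1
    unfold point
    rw [dif_pos ⟨h, hns σ h⟩]
    rfl
  · rw [if_neg h]
    unfold point
    rw [dif_neg fun h2 => h h2.1, map_zero, mul_zero]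

/-- a derivation which is zero on `q` is zero on the algebraic elements -/
theorem der_alg_q (D : Derivation ℂ Ω Ω) {q X : Ω} (hq : D q = 0)
    (hX : IsAlgebraic (IntermediateField.adjoin ℂ {q}) X) : D X = 0 := by
  have h1 : IntermediateField.adjoin ℂ {q} =
      IntermediateField.adjoin ℂ (Set.range fun _ : Fin 1 => q) := by
    rw [Set.range_const]
  rw [h1] at hX
  exact Pool.Agent.R882.WR.der_alg D (Pool.Agent.R882.WR.der_adjoin D fun _ => hq) hX

open Classical in
/-- **Families with null trace on elliptic surfaces.** -/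
theorem main (hΩ : Algebra.trdeg ℂ Ω = 2) (hK : Algebra.trdeg ℂ K = 2)
    (hy : y ^ 2 = x ^ 3 + Polynomial.aeval t A * x + Polynomial.aeval t B)
    (hgen : IntermediateField.adjoin ℂ {t, x, y} = ⊤) {p : ℕ} {c : (K →ₐ[ℂ] Ω) →₀ ℤ}
    (hcard : (c.support.image fun σ => σ t).card ≤ p) :
    IsNull p t x y c ↔ ∀ q : Ω, IsAlgebraicPoint (fibreSum A B t x y c q) := by
  have hcΩ : CharZero Ω := charZero_of_injective_algebraMap (algebraMap ℂ Ω).injective
  have hb := basis_of_gen hK hy hgen
  have hns : ∀ (q : Ω) (σ : K →ₐ[ℂ] Ω), σ t = q → (fibre A B q).Nonsingular (σ x) (σ y) := by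
    intro q σ h
    rw [← h]
    exact (point_ns hK hy hgen σ).2
  constructor
  · intro hc q X Y h hP
    by_cases hex : ∃ σ ∈ c.support, σ t = q
    · obtain ⟨σ0, hσ0, hq⟩ := hex
      have hbq : IsTranscendenceBasis ℂ ![q, σ0 x] := by
        rw [← hq]
        exact basis_map hΩ hb σ0
      obtain ⟨D1, hD1⟩ := exists_der _ hbq ![1, 0]
      obtain ⟨D2, hD2⟩ := exists_der _ hbq ![0, 1]
      have h10 : D1 q = 1 := hD1 0
      have h20 : D2 q = 0 := hD2 0
      have h21 : D2 (σ0 x) = 1 := hD2 1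
      have hp : 0 < p := lt_of_lt_of_le
        (Finset.card_pos.2 ⟨_, Finset.mem_image_of_mem _ hσ0⟩) hcard
      have h1 := Pool.Agent.R882.ZC.isolate (N := 1) (M := p - 1) c.support
        (fun (σ : K →ₐ[ℂ] Ω) _ => σ t)
        (fun σ => (c σ : Ω) * ((D1 (σ t) * D2 (σ x) - D2 (σ t) * D1 (σ x)) / σ y))
        (fun a ha => by
          rw [Fin.sum_univ_one] at ha
          rw [← hc (a 0) (by omega) D1 D2]
          refine Finset.sum_congr rfl fun σ _ => ?_
          rw [Fin.prod_univ_one]
          ring) (fun _ => q) (by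
          have h2 : (c.support.image fun (σ : K →ₐ[ℂ] Ω) (_ : Fin 1) => σ t) =
              (c.support.image fun σ => σ t).image fun q _ => q := by
            rw [Finset.image_image]
            rfl
          rw [h2]
          refine le_trans Finset.card_image_le ?_
          omega)
      have h2 : ∑ σ ∈ c.support with σ t = q, (c σ : Ω) * (D2 (σ x) / (2 * σ y)) = 0 := by
        have h3 : (c.support.filter fun (σ : K →ₐ[ℂ] Ω) => (fun _ : Fin 1 => σ t) =
            fun _ => q) = c.support.filter fun σ => σ t = q := by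
          refine Finset.filter_congr fun σ _ => ?_
          rw [funext_iff]
          exact ⟨fun h => h 0, fun h _ => h⟩
        rw [h3] at h1
        have h4 : ∑ σ ∈ c.support with σ t = q, (c σ : Ω) * (D2 (σ x) / (2 * σ y)) =
            2⁻¹ * ∑ σ ∈ c.support with σ t = q, (c σ : Ω) *
              ((D1 (σ t) * D2 (σ x) - D2 (σ t) * D1 (σ x)) / σ y) := by
          rw [Finset.mul_sum]
          refine Finset.sum_congr rfl fun σ hσ => ?_
          rw [(Finset.mem_filter.1 hσ).2, h10, h20, one_mul, zero_mul, sub_zero,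
            mul_comm 2 (σ y), ← div_div]
          ring
        rw [h4, h1, mul_zero]
      rw [← ld_sum D2 h20 c (hns q), hP] at h2
      have h2' : ld (a := Polynomial.aeval q A) (b := Polynomial.aeval q B)
          (D2.restrictScalars ℤ) (.some X Y h) = 0 := h2
      have h3 := ld_spec (D2.restrictScalars ℤ) (der_coef D2 h20 A) (der_coef D2 h20 B) h
      rw [h2', mul_zero, mul_zero] at h3
      exact ⟨alg_of_ker hbq D2 h20 h21 h3.1, alg_of_ker hbq D2 h20 h21 h3.2⟩
    · exfalso
      have h1 : fibreSum A B t x y c q = 0 := by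
        refine Finset.sum_eq_zero fun σ hσ => ?_
        unfold point
        rw [dif_neg fun h2 => hex ⟨σ, hσ, h2.1⟩, smul_zero]
      rw [h1] at hP
      exact absurd hP (by
        intro h2
        cases h2)
  · intro H a _ D1 D2
    rw [← Finset.sum_fiberwise_of_maps_to (t := c.support.image fun σ => σ t)
      (g := fun σ => σ t) fun σ hσ => Finset.mem_image_of_mem _ hσ]
    refine Finset.sum_eq_zero fun q _ => ?_
    obtain ⟨D, hD⟩ : ∃ D : Derivation ℂ Ω Ω, D = (D1 q) • D2 - (D2 q) • D1 := ⟨_, rfl⟩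
    have hDa : ∀ w, D w = D1 q * D2 w - D2 q * D1 w := fun w => by
      rw [hD]
      rfl
    have hDq : D q = 0 := by
      rw [hDa]
      ring
    have h1 := ld_sum D hDq c (hns q)
    have h2 : ld (D.restrictScalars ℤ) (fibreSum A B t x y c q) = 0 := by
      rcases hPc : fibreSum A B t x y c q with _ | ⟨X, Y, h⟩
      · rfl
      · have h3 := (H q X Y h hPc).1
        change D X / (2 * Y) = 0
        rw [der_alg_q D hDq h3, zero_div]
    rw [h1] at h2
    have h3 : ∑ σ ∈ c.support with σ t = q, (c σ : Ω) *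
        (σ t ^ a * (D1 (σ t) * D2 (σ x) - D2 (σ t) * D1 (σ x)) / σ y) =
        (2 * q ^ a) * ∑ σ ∈ c.support with σ t = q, (c σ : Ω) * (D (σ x) / (2 * σ y)) := by
      rw [Finset.mul_sum]
      refine Finset.sum_congr rfl fun σ hσ => ?_
      have h4 : σ y ≠ 0 := (map_ne_zero σ).2 (point_ns hK hy hgen σ).1
      rw [(Finset.mem_filter.1 hσ).2, hDa]
      field_simp
    rw [h3, h2, mul_zero]

end

end Pool.Agent.T6.H17.EL
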